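import Pool.Agent.X312.CF.Hodge

/-!
# The conjecture of Galkin and Shinder for cubic fourfolds containing a plane, and in `C_18`

Let `X` be a smooth cubic fourfold. It was conjectured that `X` is rational if and only if

* (Hassett, Kuznetsov) `X` has an associated K3 surface: `X` is in a Hassett divisor `C_d` such that `d` is
  admissible (not divisible by `4`, `9` and the odd primes `p ≡ 2 mod 3`);
* (Galkin, Shinder) the variety of lines `F(X)` is birational to `S^[2]` for a K3 surface `S`; by a theorem
  of Addington this means that `X` is in `C_d` for some `d` with `a² d = 2 n² + 2 n + 2`.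

The second condition implies the first one, and it is stronger in general (Addington: `C_74`). The
following is proved.

1. Suppose that `X` contains a plane `P`. Then the two conditions are equivalent; they hold if and only
   if there is a Hodge class `v` whose discriminant `3 v² - (v · h)²` is not divisible by `4`. In
   particular they hold, and `X` is rational, if there is a class `T` such that `T · (h - P)` is odd (the
   cubic fourfolds of Hassett's theorem, a countable union of divisors which is dense in `C_8`).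
2. Suppose that `X` is in `C_18`. Then the two conditions are equivalent. If `S` is a class with
   `S · h = 6`, `S² = 18` (a sextic del Pezzo surface, or an elliptic ruled surface) and if there is a
   class `T` such that `S · T` is not divisible by `3`, then `F(X)` is birational to `S'^[2]` for a K3
   surface `S'`. These are the cubic fourfolds in `C_18` which are known to be rational (Addington,
   Hassett, Tschinkel and Várilly-Alvarado).
3. Let `w` be a class of discriminant `2 k²` (then `F(X)` has a rational Lagrangian fibration) and `T` a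
   class such that `3 w · T - (w · h) (T · h)` is prime to `k` (for the surfaces in 1. this is the
   condition of Hassett). Then `F(X)` is birational to `S^[2]` for a K3 surface `S`.
4. If the lattice of the Hodge classes is the lattice with the basis `h`, `s`, `t` and the Gram matrix
   `diag(3, 8, 18)`, then `X` has an associated K3 surface, but `F(X)` is not birational to `S^[2]` for any
   K3 surface `S`.
5. Assume the theorem of Eichler and Kneser on the representation of numbers by indefinite quadratic
   forms in at least four variables (`LocalGlobal`; it is not proved here). If the group of the Hodge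
   classes has rank at least four, then the two conditions are equivalent.

By 4. the number four in 5. is optimal. So the conjectures of Galkin and Shinder and of Hassett and
Kuznetsov are the same for all cubic fourfolds containing a plane and for all cubic fourfolds in `C_18`,
and the direction `rational implies F(X) ~ S^[2]` of the conjecture of Galkin and Shinder is true for
all cubic fourfolds in `C_8` and `C_18` for which the construction of Hassett and the one of
Addington, Hassett, Tschinkel and Várilly-Alvarado proves the rationality.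

The proofs: one has to find a class `v` whose discriminant is `2 n² + 2 n + 2`. For classes `x w + y T`,
where the discriminant of `w` is `2 k²`, this is the equation `A² - k² s² = 3 k² - Δ y²` for a conic which
has a rational point at infinity, and it is solved by explicit formulas, with one of the factors
`A ± k s` equal to `± 1`, `± 2`, `3` or `6`. In 4. the equation `24 x² + 54 y² = 2 n² + 2 n + 2` has no
solution: it is solvable modulo all integers, and is excluded by quadratic reciprocity.

The description of the cubic fourfold (`CubicFourfold`, `H4`, `IsCohomology`) is taken from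
`Pool.Agent.Y95.Q`.
-/

set_option autoImplicit false

namespace Pool.Agent.Results.MP_4d0966_ag.CubicsWithAPlane

open Pool.Agent.Y95.Q (CubicFourfold H4)
open Pool.Agent.X312.CF

/-- `X` is in the Hassett divisor `C_d`: there is a Hodge class `v` such that `h` and `v` span a
saturated group of discriminant `d`. -/
def InDivisor {X : CubicFourfold} (H : H4 X) (d : ℤ) : Prop :=
  ∃ v, H.IsHodge v ∧ H.Saturated v ∧ H.disc v = d

/-- `X` is in a Hassett divisor `C_d` such that `a² d = 2 n² + 2 n + 2` for some integers `a` and `n`. By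
a theorem of Addington this means that the variety of lines `F(X)` is birational to the Hilbert
square `S^[2]` of some K3 surface `S`. -/
def HilbertSquare {X : CubicFourfold} (H : H4 X) : Prop :=
  ∃ d, (∃ a n : ℤ, a ^ 2 * d = 2 * n ^ 2 + 2 * n + 2) ∧ InDivisor H d

/-- `X` is in a Hassett divisor `C_d` with an admissible `d`. By theorems of Hassett and of Addington
and Thomas this means that `X` has an associated K3 surface, in the sense of Hassett or of
Kuznetsov. -/
def AssociatedK3 {X : CubicFourfold} (H : H4 X) : Prop :=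
  ∃ d, Pool.Agent.Y95.Q.Admissible d ∧ InDivisor H d

/-- The theorem of Eichler and Kneser: an indefinite integral quadratic form in at least four
variables represents every nonzero integer that it represents over all rings `ℤ_p`. -/
def LocalGlobal : Prop :=
  ∀ (ι : Type) [Fintype ι] [DecidableEq ι] (f : Matrix ι ι ℤ), 4 ≤ Fintype.card ι → f.IsSymm →
    f.det ≠ 0 → (∃ x : ι → ℤ, 0 < dotProduct x (f.mulVec x)) →
    (∃ x : ι → ℤ, dotProduct x (f.mulVec x) < 0) →
    ∀ m : ℤ, m ≠ 0 →
      (∀ (p : ℕ) [Fact p.Prime], ∃ x : ι → ℤ_[p],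
        dotProduct x ((f.map (Int.cast : ℤ → ℤ_[p])).mulVec x) = m) →
      ∃ x : ι → ℤ, dotProduct x (f.mulVec x) = m

variable {X : CubicFourfold} {H : H4 X}

theorem lab_iff (hH : H.IsCohomology) {d : ℤ} (hd : d ≠ 0) :
    (hodgeLat hH).Lab d ↔ InDivisor H d := by
  constructor
  · rintro ⟨v, h1, h2, -⟩
    exact ⟨v.1, v.2, (sat_iff hH v).1 h1, by rw [← h2]; exact (q_eq hH v).symm⟩
  · rintro ⟨v, h1, h2, h3⟩
    exact ⟨⟨v, h1⟩, (sat_iff hH ⟨v, h1⟩).2 h2, by rw [← h3]; exact q_eq hH ⟨v, h1⟩, hd⟩

theorem hilbert_iff (hH : H.IsCohomology) :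
    HilbertSquare H ↔ ∃ d, (hodgeLat hH).Lab d ∧ StarThree d := by
  constructor
  · rintro ⟨d, ⟨a, n, h⟩, h2⟩
    have hpos : 0 < 2 * n ^ 2 + 2 * n + 2 := by nlinarith [sq_nonneg (2 * n + 1)]
    have hd : d ≠ 0 := by
      rintro rfl
      rw [mul_zero] at h
      omega
    have ha : a ≠ 0 := by
      rintro rfl
      have : (0 : ℤ) ^ 2 * d = 0 := by ring
      omega
    exact ⟨d, (lab_iff hH hd).2 h2, n, a, ha, h⟩
  · rintro ⟨d, h1, n, a, ha, h⟩
    exact ⟨d, ⟨a, n, h⟩, (lab_iff hH h1.pos.ne').1 h1⟩

theorem k3_iff (hH : H.IsCohomology) :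
    AssociatedK3 H ↔ ∃ d, (hodgeLat hH).Lab d ∧ Admissible d := by
  constructor
  · rintro ⟨d, ⟨h6, h4, h9, hp⟩, h2⟩
    exact ⟨d, (lab_iff hH (by omega)).2 h2, h4, h9, fun p hp1 hp2 hp3 hpd => hp p hp1 hp2 hpd hp3⟩
  · rintro ⟨d, h1, h4, h9, hp⟩
    obtain ⟨v, hv, hs, hd⟩ := (lab_iff hH h1.pos.ne').1 h1
    refine ⟨d, ⟨?_, h4, h9, fun p hp1 hp2 hpd hp3 => hp p hp1 hp2 hp3 hpd⟩, v, hv, hs, hd⟩
    rw [← hd]
    exact hH.six_lt hv (by rw [hd]; exact h1.pos)

theorem hodgeLat_finrank (hH : H.IsCohomology) :
    Module.finrank ℤ (hodgeLat hH).A = H.rank := by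
  have h1 : Submodule.span ℤ {v | H.IsHodge v} = hodgeSub H :=
    Submodule.span_eq (hodgeSub H)
  unfold H4.rank
  rw [h1]
  rfl

/-- **The conjecture of Galkin and Shinder for cubic fourfolds containing a plane and in `C_18`.** -/
theorem result (hH : H.IsCohomology) :
    -- 1. cubic fourfolds containing a plane
    (∀ P : X.Plane, (HilbertSquare H ↔ AssociatedK3 H) ∧
      (HilbertSquare H ↔ ∃ v, H.IsHodge v ∧ ¬ 4 ∣ H.disc v) ∧
      ∀ T, H.IsHodge T → Odd (H.ip T (H.h - H.cl P)) → X.IsRational ∧ HilbertSquare H) ∧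
    -- 2. the divisor `C_18`
    ((InDivisor H 18 → (HilbertSquare H ↔ AssociatedK3 H)) ∧
      ∀ S, H.IsHodge S → H.ip S H.h = 6 → H.ip S S = 18 →
        ∀ T, H.IsHodge T → ¬ 3 ∣ H.ip S T → HilbertSquare H) ∧
    -- 3. the divisors with the discriminants `2 k²`
    (∀ (k : ℤ) (w T : Fin 23 → ℤ), H.IsHodge w → H.IsHodge T → H.disc w = 2 * k ^ 2 →
      IsCoprime (3 * H.ip w T - H.ip w H.h * H.ip T H.h) k → HilbertSquare H) ∧
    -- 4. a lattice of rank three for which the two conditions differ
    (∀ s t : Fin 23 → ℤ, (∀ v, H.IsHodge v ↔ ∃ a b c : ℤ, v = a • H.h + b • s + c • t) →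
      H.ip s H.h = 0 → H.ip t H.h = 0 → H.ip s t = 0 → H.ip s s = 8 → H.ip t t = 18 →
      AssociatedK3 H ∧ ¬ HilbertSquare H) ∧
    -- 5. rank at least four
    (LocalGlobal → 4 ≤ H.rank → (HilbertSquare H ↔ AssociatedK3 H)) := by
  have hb : ∀ u v : hodgeSub H, (hodgeLat hH).b u v = H.ip u v := fun u v => rfl
  have imp : HilbertSquare H → AssociatedK3 H := by
    rw [hilbert_iff hH, k3_iff hH]
    rintro ⟨d, h1, h2⟩
    exact ⟨d, h1, h2.admissible⟩
  refine ⟨?_, ⟨?_, ?_⟩, ?_, ?_, ?_⟩
  · intro P
    have hP := (hH.cl_range (H.cl P)).1 ⟨P, rfl⟩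
    have hPl : (hodgeLat hH).IsPlane (⟨H.cl P, hP.1⟩ : hodgeSub H) := ⟨hP.2.2, hP.2.1⟩
    have hstar : (∃ v, H.IsHodge v ∧ ¬ 4 ∣ H.disc v) → HilbertSquare H := by
      rintro ⟨v, hv, h4⟩
      rw [hilbert_iff hH]
      refine hPl.star (⟨v, hv⟩ : hodgeSub H) (Or.inr ?_)
      have h5 := CLat.q_even (L := hodgeLat hH) (⟨v, hv⟩ : hodgeSub H)
      rw [q_eq hH, Int.even_iff] at h5
      rw [q_eq hH]
      have h6 : ¬ (4 : ℤ) ∣ H.disc v := h4
      show H.disc v % 4 = 2
      have h7 : H.disc v % 2 = 0 := h5
      omega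
    have hK : AssociatedK3 H → ∃ v, H.IsHodge v ∧ ¬ 4 ∣ H.disc v := by
      rintro ⟨d, hd, v, hv, -, rfl⟩
      exact ⟨v, hv, hd.2.1⟩
    refine ⟨⟨imp, fun h => hstar (hK h)⟩, ⟨fun h => hK (imp h), hstar⟩, ?_⟩
    intro T hT hodd
    refine ⟨hH.hassett P T hT hodd, ?_⟩
    rw [hilbert_iff hH]
    refine hPl.star (⟨T, hT⟩ : hodgeSub H) (Or.inl ?_)
    have h1 : (hodgeLat hH).B (⟨H.cl P, hP.1⟩ : hodgeSub H) (⟨T, hT⟩ : hodgeSub H) =
        3 * H.ip (H.cl P) T - H.ip (H.cl P) H.h * H.ip T H.h := rfl
    rw [h1, hP.2.1]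
    rw [H.ip_sub_right, Int.odd_iff, hH.comm T (H.cl P)] at hodd
    omega
  · intro h18
    have h1 := (lab_iff hH (by norm_num)).2 h18
    obtain ⟨v, -, hv, -⟩ := h1
    rw [hilbert_iff hH, k3_iff hH]
    exact CLat.star_iff_18 hv
  · intro S hS h6 h18 T hT h3
    have hq : (hodgeLat hH).q (⟨S, hS⟩ : hodgeSub H) = 18 := by
      rw [q_eq hH]
      show H.disc S = 18
      unfold H4.disc
      rw [h18, hH.comm, h6]
      norm_num
    have hw : (hodgeLat hH).IsSix (⟨S - (2 : ℤ) • H.h, H.isHodge_sub hS
        (H.isHodge_smul _ hH.h_hodge)⟩ : hodgeSub H) := by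
      constructor
      · show H.ip (S - (2 : ℤ) • H.h) H.h = 0
        rw [H.ip_sub_left, H.ip_smul_left, h6, hH.h_self]
        norm_num
      · show H.ip (S - (2 : ℤ) • H.h) (S - (2 : ℤ) • H.h) = 6
        simp only [H.ip_sub_left, H.ip_sub_right, H.ip_smul_left, H.ip_smul_right, h6, h18,
          hH.h_self, hH.comm H.h S]
        norm_num
    rw [hilbert_iff hH]
    refine hw.star_of_three (T := (⟨T, hT⟩ : hodgeSub H)) ?_
    have e1 : (hodgeLat hH).b (⟨T, hT⟩ : hodgeSub H) (hodgeLat hH).h = H.ip T H.h := rfl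
    have e2 : (hodgeLat hH).b (⟨S - (2 : ℤ) • H.h, H.isHodge_sub hS
        (H.isHodge_smul _ hH.h_hodge)⟩ : hodgeSub H) (⟨T, hT⟩ : hodgeSub H) =
        H.ip S T - 2 * H.ip T H.h := by
      show H.ip (S - (2 : ℤ) • H.h) T = _
      rw [H.ip_sub_left, H.ip_smul_left, hH.comm H.h T]
    rw [e1, e2]
    omega
  · intro k w T hw hT hk hco
    rw [hilbert_iff hH]
    exact CLat.star_coprime (L := hodgeLat hH) (w := (⟨w, hw⟩ : hodgeSub H))
      (T := (⟨T, hT⟩ : hodgeSub H)) (by rw [q_eq hH]; exact hk) hco
  · intro s t hst hs ht hst0 hss htt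
    have hsh : H.ip H.h s = 0 := by rw [hH.comm]; exact hs
    have hth : H.ip H.h t = 0 := by rw [hH.comm]; exact ht
    have hts0 : H.ip t s = 0 := by rw [hH.comm]; exact hst0
    have hdisc : ∀ a b c : ℤ, H.disc (a • H.h + b • s + c • t) = 24 * b ^ 2 + 54 * c ^ 2 := by
      intro a b c
      unfold H4.disc
      simp only [H.ip_add_left, H.ip_add_right, H.ip_smul_left, H.ip_smul_right, hH.h_self, hsh, hth,
        hs, ht, hst0, hts0, hss, htt]
      ring
    refine ⟨⟨78, ⟨by norm_num, by norm_num, by norm_num, ?_⟩, s + t, ?_, ?_, ?_⟩, ?_⟩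
    · intro p hp hp2 hpd hp3
      have h1 : p ∣ 2 * (3 * 13) := by
        have : (p : ℤ) ∣ ((2 * (3 * 13) : ℕ) : ℤ) := by simpa using hpd
        exact_mod_cast this
      rcases (Nat.Prime.dvd_mul hp).1 h1 with h2 | h2
      · exact hp2 ((Nat.prime_dvd_prime_iff_eq hp Nat.prime_two).1 h2)
      · rcases (Nat.Prime.dvd_mul hp).1 h2 with h3 | h3
        · rw [(Nat.prime_dvd_prime_iff_eq hp Nat.prime_three).1 h3] at hp3
          omega
        · rw [(Nat.prime_dvd_prime_iff_eq hp (by norm_num)).1 h3] at hp3
          omega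
    · exact (hst _).2 ⟨0, 1, 1, by simp⟩
    · intro x m a b hm hx
      have hxH : H.IsHodge x := by
        refine H.isHodge_of_smul hm ?_
        rw [hx]
        exact (hst _).2 ⟨a, b, b, by rw [smul_add, add_assoc]⟩
      obtain ⟨a0, b0, c0, rfl⟩ := (hst x).1 hxH
      have h1 := congrArg (fun z => H.ip z s) hx
      have h2 := congrArg (fun z => H.ip z t) hx
      simp only [H.ip_add_left, H.ip_smul_left, hsh, hth, hst0, hts0, hss, htt] at h1 h2
      have h3 : m * (b0 - c0) = 0 := by linarith
      have h4 : b0 = c0 := by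
        rcases mul_eq_zero.1 h3 with h | h
        · exact absurd h hm
        · linarith
      exact ⟨a0, b0, by rw [h4, smul_add, add_assoc]⟩
    · have h1 := hdisc 0 1 1
      rw [zero_smul, zero_add, one_smul, one_smul] at h1
      rw [h1]; norm_num
    · rintro ⟨d, ⟨a, n, h⟩, v, hv, -, hd⟩
      obtain ⟨a0, b0, c0, rfl⟩ := (hst v).1 hv
      rw [hdisc] at hd
      refine no_value (a * b0) (a * c0) n ?_
      rw [← h, ← hd]
      ring
  · intro hLG hr
    refine ⟨imp, ?_⟩
    rw [hilbert_iff hH, k3_iff hH]
    rintro ⟨d, h1, h2⟩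
    exact CLat.exists_star hLG (by rw [hodgeLat_finrank hH]; exact hr) h1 h2

end Pool.Agent.Results.MP_4d0966_ag.CubicsWithAPlane
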