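import Pool.Agent.X328.CF.Eis

/-!
# The conjecture of Galkin and Shinder for cyclic cubic fourfolds

Let `X` be a cyclic cubic fourfold, that is, a smooth cubic fourfold `f(x_0, …, x_4) + x_5 ^ 3 = 0`, a triple
covering of `ℙ^4` which is branched along a cubic threefold. These cubic fourfolds form a family of
dimension ten. It is proved that for a cyclic cubic fourfold `X`, without restriction on the rank of
the lattice of the Hodge classes and without any unproved hypothesis, the following are equivalent.

* The variety of lines `F(X)` is birational to `S^[2]` for a K3 surface `S`: by a theorem of Addington this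
  means that `X` is in `C_d` for some `d` with `a ^ 2 d = 2 n ^ 2 + 2 n + 2`.
* `X` has an associated K3 surface (Hassett, Kuznetsov): `X` is in `C_d` for an admissible `d`.
* `disc v` is admissible for some Hodge class `v`.

So the rationality conjectures of Galkin and Shinder and of Hassett and Kuznetsov are the same for
cyclic cubic fourfolds. In general the first condition is stronger: it fails for the very general
members of `C_74` (Addington) and for some `X` of rank three which contain a plane
(`MP_4d0966_ag.CubicsWithAPlane`, where the equivalence is derived for rank at least four from the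
theorem of Eichler and Kneser). For a cyclic cubic fourfold in `C_d`, `d` admissible, for instance
in `C_74`, the variety `F(X)` is always birational to a Hilbert square.

If the group of the Hodge classes has rank three then it is generated by `h`, a class `T` and `ι T`,
where `ι` is the action of the covering automorphism (a torsion-free module of rank one over the
Eisenstein integers is free). In this case `X` is in `C_d` only if `d` is the product of `disc T` and
a norm of an Eisenstein integer, and the conditions hold if and only if `disc T` is admissible; so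
both conjectures predict the rationality of `X` in terms of the single number `disc T`.

The same is proved for every cubic fourfold with an action `ι` of order three on the Hodge classes
which has only the multiples of `h` as invariants (`EisensteinAction`); it need not come from an
automorphism.

Idea of the proof. The Hodge classes modulo `h` are a module over the Eisenstein integers, and
`disc (s v + t ι v) = (s ^ 2 - s t + t ^ 2) disc v`. If `d` is admissible then `d / 2` divides a number
`n ^ 2 + n + 1`, and the quotient is a norm `s ^ 2 - s t + t ^ 2`. So `disc (s v + t ι v)` is equal to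
`2 n ^ 2 + 2 n + 2` if `disc v = d`.
-/

set_option autoImplicit false

namespace Pool.Agent.Results.MP_4d0966_ag.CyclicCubicFourfolds

open Pool.Agent.Y95.Q

/-- An automorphism which makes the cubic fourfold `F = 0` cyclic: a linear map `g` with `g ^ 3 = 1`
which preserves `F` and fixes the vectors of a hyperplane only. In suitable coordinates `g`
multiplies `x_5` by a primitive third root of unity and `F = f(x_0, …, x_4) + x_5 ^ 3`. -/
structure CyclicAutomorphism (X : CubicFourfold) where
  /-- the linear map -/
  g : (Fin 6 → ℂ) →ₗ[ℂ] (Fin 6 → ℂ)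
  cube : ∀ x, g (g (g x)) = x
  preserves : ∀ x, MvPolynomial.eval (g x) X.F = MvPolynomial.eval x X.F
  dim : Module.finrank ℂ (LinearMap.ker (g - LinearMap.id)) = 5

/-- The known properties of the action `ι` of this automorphism on `H^4(X, ℤ)`: it is an isometry,
fixes `h`, and maps Hodge classes to Hodge classes; as `X / g = ℙ^4`, the invariant classes, in
particular the classes `v + ι v + ι (ι v)`, are multiples of `h`. -/
structure ActsBy {X : CubicFourfold} (H : H4 X) (_ : CyclicAutomorphism X)
    (ι : (Fin 23 → ℤ) →+ (Fin 23 → ℤ)) : Prop where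
  isometry : ∀ v w, H.ip (ι v) (ι w) = H.ip v w
  fixes_h : ι H.h = H.h
  hodge : ∀ v, H.IsHodge v → H.IsHodge (ι v)
  trace : ∀ v, ∃ c : ℤ, v + ι v + ι (ι v) = c • H.h

/-- An action of the Eisenstein integers on the Hodge classes modulo `h`: an isometry `ι` of the
group of the Hodge classes which fixes `h`, such that `v + ι v + ι (ι v)` is a multiple of `h` for all
Hodge classes `v`. -/
structure EisensteinAction {X : CubicFourfold} (H : H4 X)
    (ι : (Fin 23 → ℤ) →+ (Fin 23 → ℤ)) : Prop where
  hodge : ∀ v, H.IsHodge v → H.IsHodge (ι v)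
  isometry : ∀ v w, H.IsHodge v → H.IsHodge w → H.ip (ι v) (ι w) = H.ip v w
  fixes_h : ι H.h = H.h
  trace : ∀ v, H.IsHodge v → ∃ c : ℤ, v + ι v + ι (ι v) = c • H.h

/-- `X` is in the Hassett divisor `C_d`: there is a Hodge class `v` such that `h` and `v` span a
saturated group of discriminant `d`. -/
def InDivisor {X : CubicFourfold} (H : H4 X) (d : ℤ) : Prop :=
  ∃ v, H.IsHodge v ∧ H.Saturated v ∧ H.disc v = d

/-- `X` is in a Hassett divisor `C_d`, where `d = (2 n ^ 2 + 2 n + 2) / a ^ 2` with integers `a` and `n`.
By a theorem of Addington this means that the variety of lines `F(X)` is birational to the Hilbert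
square `S^[2]` of some K3 surface `S`. -/
def HilbertSquare {X : CubicFourfold} (H : H4 X) : Prop :=
  ∃ d, (∃ a n : ℤ, a ^ 2 * d = 2 * n ^ 2 + 2 * n + 2) ∧ InDivisor H d

/-- `X` is in a Hassett divisor `C_d` with an admissible `d`. By theorems of Hassett and of Addington
and Thomas this means that `X` has an associated K3 surface, in the sense of Hassett or of
Kuznetsov. -/
def AssociatedK3 {X : CubicFourfold} (H : H4 X) : Prop := ∃ d, Admissible d ∧ InDivisor H d

variable {X : CubicFourfold} {H : H4 X}

theorem disc_act (hH : H.IsCohomology) {ι : (Fin 23 → ℤ) →+ (Fin 23 → ℤ)}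
    (hι : EisensteinAction H ι) {v : Fin 23 → ℤ} (hv : H.IsHodge v) (s t : ℤ) :
    H.disc (s • v + t • ι v) = (s ^ 2 - s * t + t ^ 2) * H.disc v := by
  obtain ⟨c, hc⟩ := hι.trace v hv
  have hιv := hι.hodge v hv
  have e1 : H.ip (ι v) (ι v) = H.ip v v := hι.isometry v v hv hv
  have e2 : H.ip (ι v) (ι (ι v)) = H.ip v (ι v) := hι.isometry v (ι v) hv hιv
  have e3 : H.ip H.h (ι v) = H.ip H.h v := by
    have h1 := hι.isometry H.h v hH.h_hodge hv
    rwa [hι.fixes_h] at h1
  have e4 : H.ip H.h (ι (ι v)) = H.ip H.h v := by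
    have h1 := hι.isometry H.h (ι v) hH.h_hodge hιv
    rw [hι.fixes_h] at h1
    rw [h1, e3]
  have e5 : H.ip H.h (v + ι v + ι (ι v)) = 3 * H.ip H.h v := by
    rw [H4.ip_add_right, H4.ip_add_right, e3, e4]
    ring
  have e6 : c = H.ip H.h v := by
    rw [hc, H4.ip_smul_right, hH.h_self] at e5
    linarith
  have e7 : H.ip (ι v) (v + ι v + ι (ι v)) = 2 * H.ip v (ι v) + H.ip v v := by
    rw [H4.ip_add_right, H4.ip_add_right, e1, e2, hH.comm (ι v) v]
    ring
  have e8 : H.ip (ι v) (v + ι v + ι (ι v)) = H.ip H.h v ^ 2 := by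
    rw [hc, H4.ip_smul_right, hH.comm (ι v) H.h, e3, e6]
    ring
  rw [e7] at e8
  simp only [H4.disc, H4.ip_add_left, H4.ip_add_right, H4.ip_smul_left, H4.ip_smul_right, e1, e3,
    hH.comm (ι v) v]
  linear_combination (3 * s * t) * e8

theorem hodge_comb (hH : H.IsCohomology) {ι : (Fin 23 → ℤ) →+ (Fin 23 → ℤ)}
    (hι : EisensteinAction H ι) {v : Fin 23 → ℤ} (hv : H.IsHodge v) (s t : ℤ) :
    H.IsHodge (s • v + t • ι v) :=
  H.isHodge_add (H.isHodge_smul s hv) (H.isHodge_smul t (hι.hodge v hv))

theorem norm_nonneg (s t : ℤ) : 0 ≤ s ^ 2 - s * t + t ^ 2 := by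
  nlinarith [sq_nonneg (s - t), sq_nonneg s, sq_nonneg t]

theorem admissible_of_hilbert (hH : H.IsCohomology) {d a n : ℤ}
    (h : a ^ 2 * d = 2 * n ^ 2 + 2 * n + 2) {v : Fin 23 → ℤ} (hv : H.IsHodge v)
    (hd : H.disc v = d) : Admissible d := by
  have h0 : 0 < d := by
    have h1 : 0 < a ^ 2 * d := by rw [h]; nlinarith [sq_nonneg (2 * n + 1)]
    by_contra hcon
    nlinarith [sq_nonneg a]
  refine ⟨?_, four_not_dvd h, nine_not_dvd h, fun p hp h2 hpd => prime_mod h hp h2 hpd⟩
  rw [← hd]
  exact hH.six_lt hv (by rw [hd]; exact h0)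

theorem hilbert_of_admissible (hH : H.IsCohomology) {ι : (Fin 23 → ℤ) →+ (Fin 23 → ℤ)}
    (hι : EisensteinAction H ι) {v : Fin 23 → ℤ} (hv : H.IsHodge v)
    (hA : Admissible (H.disc v)) : HilbertSquare H := by
  obtain ⟨s, t, n, h⟩ := Pool.Agent.X328.CF.Eis.exists_mul hA
    (Pool.Agent.X328.CF.disc_even hH v)
  have h1 : H.disc (s • v + t • ι v) = 2 * n ^ 2 + 2 * n + 2 := by rw [disc_act hH hι hv, h]
  obtain ⟨w, m, hm, hw, hsat, hd⟩ := Pool.Agent.X328.CF.exists_sat hH (hodge_comb hH hι hv s t)
    (by rw [h1]; nlinarith [sq_nonneg (2 * n + 1)])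
  exact ⟨H.disc w, ⟨m, n, by rw [← hd, h1]⟩, w, hw, hsat, rfl⟩

/-- **Cyclic cubic fourfolds.** Let `ι` be an isometry of the group of the Hodge classes of `X` which
fixes `h`, such that `v + ι v + ι (ι v)` is always a multiple of `h`; for instance the action of a
cyclic automorphism (the last statement). Then `F(X)` is birational to a Hilbert square of a K3
surface if and only if `X` has an associated K3 surface, if and only if `disc v` is admissible for
some Hodge class `v`. If the group of the Hodge classes is generated by `h`, `T` and `ι T` (rank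
three), then this is true if and only if `disc T` is admissible, and `X` is in `C_d` only if `d` is the
product of `disc T` and a norm `s ^ 2 - s t + t ^ 2`. -/
theorem result {X : CubicFourfold} {H : H4 X} (hH : H.IsCohomology) :
    (∀ ι : (Fin 23 → ℤ) →+ (Fin 23 → ℤ), EisensteinAction H ι →
      (HilbertSquare H ↔ AssociatedK3 H) ∧
      (HilbertSquare H ↔ ∃ v, H.IsHodge v ∧ Admissible (H.disc v)) ∧
      ∀ T, H.IsHodge T →
        (∀ v, H.IsHodge v → ∃ a b c : ℤ, v = a • H.h + b • T + c • ι T) →
        (HilbertSquare H ↔ Admissible (H.disc T)) ∧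
        ∀ d, InDivisor H d → ∃ s t : ℤ, d = (s ^ 2 - s * t + t ^ 2) * H.disc T) ∧
    ∀ (σ : CyclicAutomorphism X) (ι : (Fin 23 → ℤ) →+ (Fin 23 → ℤ)), ActsBy H σ ι →
      EisensteinAction H ι := by
  refine ⟨fun ι hι => ?_, fun σ ι hι => ⟨hι.hodge, fun v w _ _ => hι.isometry v w, hι.fixes_h,
    fun v _ => hι.trace v⟩⟩
  have h1 : HilbertSquare H → AssociatedK3 H := by
    rintro ⟨d, ⟨a, n, h⟩, v, hv, hs, hd⟩
    exact ⟨d, admissible_of_hilbert hH h hv hd, v, hv, hs, hd⟩
  have h2 : AssociatedK3 H → ∃ v, H.IsHodge v ∧ Admissible (H.disc v) := by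
    rintro ⟨d, hA, v, hv, -, rfl⟩
    exact ⟨v, hv, hA⟩
  have h3 : (∃ v, H.IsHodge v ∧ Admissible (H.disc v)) → HilbertSquare H := by
    rintro ⟨v, hv, hA⟩
    exact hilbert_of_admissible hH hι hv hA
  refine ⟨⟨h1, fun h => h3 (h2 h)⟩, ⟨fun h => h2 (h1 h), h3⟩, fun T hT hgen => ?_⟩
  have hdisc : ∀ v, H.IsHodge v → ∃ s t : ℤ, H.disc v = (s ^ 2 - s * t + t ^ 2) * H.disc T := by
    intro v hv
    obtain ⟨a, b, c, rfl⟩ := hgen v hv
    refine ⟨b, c, ?_⟩
    rw [← disc_act hH hι hT b c]
    have e := hH.disc_comb 1 a (b • T + c • ι T)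
    rw [one_smul, one_pow, one_mul] at e
    rw [← e]
    congr 1
    abel
  refine ⟨⟨fun h => ?_, fun h => h3 ⟨T, hT, h⟩⟩, ?_⟩
  · obtain ⟨v, hv, hA⟩ := h2 (h1 h)
    obtain ⟨s, t, hst⟩ := hdisc v hv
    obtain ⟨h6, h4, h9, hp⟩ := hA
    rw [hst] at h6 h4 h9 hp
    have hpos : 0 < H.disc T := by
      by_contra hcon
      nlinarith [norm_nonneg s t]
    exact ⟨hH.six_lt hT hpos, fun h => h4 (h.mul_left _), fun h => h9 (h.mul_left _),
      fun p hpp hp2 hpd => hp p hpp hp2 (hpd.mul_left _)⟩
  · rintro d ⟨v, hv, -, rfl⟩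
    exact hdisc v hv

end Pool.Agent.Results.MP_4d0966_ag.CyclicCubicFourfolds
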