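import Pool.Agent.X328.CF.D4Sub

/-!
# The conjecture of Galkin and Shinder for cubic fourfolds with a lattice `D₄(2)`

Let `X` be a smooth cubic fourfold such that the lattice of the Hodge classes in `H^4(X, ℤ)` which are
orthogonal to `h` contains a lattice `D₄(2)` (this is a condition of codimension four on `X`). The
following is proved.

1. The variety of lines `F(X)` is birational to `S^[2]` for a K3 surface `S` if and only if `X` is in a
   Hassett divisor `C_d` such that `4` does not divide `d`, if and only if there is a Hodge class `v`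
   such that `4` does not divide `disc v`, if and only if `X` is in `C_d` for an admissible `d` (has an
   associated K3 surface in the sense of Hassett, or of Kuznetsov). In particular the conjecture
   of Galkin and Shinder and the conjecture of Hassett and Kuznetsov are equivalent for these `X`; in
   general the condition of Galkin and Shinder is stronger (Addington).
2. If `X` is in `C_d`, `d ≤ 42` and `4` does not divide `d`, then `X` is rational and `F(X)` is birational
   to `S^[2]` for a K3 surface `S`, as predicted.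
3. If `v` is a Hodge class which has an odd product with some element of the lattice `D₄(2)`, then
   `F(X)` is birational to `S^[2]` for a K3 surface `S`, and `X` is rational if `disc v ≤ 42`.

The condition is satisfied, so that 1. and 2. hold, if `X` has a symplectic involution, if `X` has an
Eckardt point, and if `X` contains planes `P`, `Q_1`, `Q_2`, `Q_3`, `Q_4` such that `Q_i` meets `P` in a line
and `Q_i ∩ Q_j` is a point for all `i ≠ j` (this means that four fibres of the quadric fibration defined
by `P` are pairs of planes).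

Known facts which are used (the hypotheses of the theorem): the properties of `H^4(X, ℤ)` collected
in `H4.IsCohomology`; the rationality of the cubic fourfolds in `C_14` (Bolognesi, Russo,
Staglianò), `C_26`, `C_38` and `C_42` (Russo, Staglianò); for the involutions, the description of the
invariant and of the anti-invariant classes (Laza, Pearlstein, Zhang; Laza, Zheng; Marquand);
for planes, the known intersection numbers. The theorem of Addington which translates
`F(X) ~ S^[2]` is used in the definition `HilbertSquare`.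

Idea of the proof. Let `v` be a Hodge class. The discriminants of the classes `v + s`, where `s` is in
`D₄(2)`, are the numbers `disc v + (3 / 8) (|y + 4 x| ^ 2 - |y| ^ 2)`, where `x` is a vector in `ℤ^4` with
an even sum of coordinates and the vector `y` is given by the products of `v` with the lattice. By
theorems on sums of four squares and of four triangular numbers (one has to take care of the
parities of the squares and of the sum of `x`) they contain the progression with difference `12`
which starts at `disc v`. If `4` does not divide `disc v`, then `disc v` is `2` or `6` modulo `12`, and the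
progression contains numbers of the form `2 n ^ 2 + 2 n + 2`.
-/

set_option autoImplicit false

namespace Pool.Agent.Results.MP_4d0966_ag.HilbertSquaresD4

open Pool.Agent.Y95.Q

/-- The classes `s i` are Hodge classes which are orthogonal to `h`, and their matrix of products is
`2 C`. -/
structure Spans {X : CubicFourfold} (H : H4 X) {n : ℕ} (C : Matrix (Fin n) (Fin n) ℤ)
    (s : Fin n → Fin 23 → ℤ) : Prop where
  hodge : ∀ i, H.IsHodge (s i)
  primitive : ∀ i, H.ip (s i) H.h = 0
  gram : ∀ i j, H.ip (s i) (s j) = 2 * C i j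

/-- An involution of the cubic fourfold `F = 0` which has an eigenspace of dimension `m` for the
eigenvalue `-1`: a linear map with the square `1` which preserves `F`. For `m = 1` it fixes a point and
a hyperplane (the point is an Eckardt point of the cubic fourfold), for `m = 2` it is symplectic. -/
structure Involution (X : CubicFourfold) (m : ℕ) where
  /-- the linear map -/
  g : (Fin 6 → ℂ) →ₗ[ℂ] (Fin 6 → ℂ)
  square : ∀ x, g (g x) = x
  preserves : ∀ x, MvPolynomial.eval (g x) X.F = MvPolynomial.eval x X.F
  dim : Module.finrank ℂ (LinearMap.ker (g + LinearMap.id)) = m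

/-- The known properties of the action `ι` on `H^4(X, ℤ)` of an involution with `m = 1`: it is an
isometric involution and fixes `h`; the classes `v` with `ι v = v` are Hodge classes; those which
are orthogonal to `h` form a lattice `E₆(2)`. -/
structure EckardtActsBy {X : CubicFourfold} (H : H4 X) (_ : Involution X 1)
    (ι : (Fin 23 → ℤ) →+ (Fin 23 → ℤ)) : Prop where
  square : ∀ v, ι (ι v) = v
  isometry : ∀ v w, H.ip (ι v) (ι w) = H.ip v w
  fixes_h : ι H.h = H.h
  hodge : ∀ v, ι v = v → H.IsHodge v
  lattice : ∃ s : Fin 6 → Fin 23 → ℤ, (∀ i j, H.ip (s i) (s j) = 2 * CartanMatrix.E₆ i j) ∧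
    ∀ v, ι v = v ∧ H.ip v H.h = 0 ↔ ∃ c : Fin 6 → ℤ, v = ∑ i, c i • s i

/-- The known properties of the action `ι` on `H^4(X, ℤ)` of an involution with `m = 2`: it is an
isometric involution and fixes `h`; the classes `v` with `ι v = -v` are Hodge classes and form a
lattice `E₈(2)`. -/
structure SymplecticActsBy {X : CubicFourfold} (H : H4 X) (_ : Involution X 2)
    (ι : (Fin 23 → ℤ) →+ (Fin 23 → ℤ)) : Prop where
  square : ∀ v, ι (ι v) = v
  isometry : ∀ v w, H.ip (ι v) (ι w) = H.ip v w
  fixes_h : ι H.h = H.h
  hodge : ∀ v, ι v = -v → H.IsHodge v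
  lattice : ∃ s : Fin 8 → Fin 23 → ℤ, (∀ i j, H.ip (s i) (s j) = 2 * CartanMatrix.E₈ i j) ∧
    ∀ v, ι v = -v ↔ ∃ c : Fin 8 → ℤ, v = ∑ i, c i • s i

/-- The dimension of the linear subspace which belongs to the intersection of two planes: it is `2` if
they meet in a line, `1` if they meet in a point, and `0` if they are disjoint. -/
noncomputable def meetDim {X : CubicFourfold} (P Q : X.Plane) : ℕ :=
  Module.finrank ℂ (P.1 ⊓ Q.1 : Submodule ℂ (Fin 6 → ℂ))

/-- The known intersection numbers of planes: `-1` for two planes which meet in a line, `1` for two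
planes which meet in a point. -/
def IntersectionNumbers {X : CubicFourfold} (H : H4 X) : Prop :=
  ∀ P Q : X.Plane, (meetDim P Q = 2 → H.ip (H.cl P) (H.cl Q) = -1) ∧
    (meetDim P Q = 1 → H.ip (H.cl P) (H.cl Q) = 1)

/-- Planes `P`, `Q_1`, `Q_2`, `Q_3`, `Q_4` in `X` such that `Q_i` meets `P` in a line, and `Q_i` and `Q_j`
meet in a point, for all `i ≠ j`. -/
structure FivePlanes (X : CubicFourfold) where
  /-- the plane `P` -/
  P : X.Plane
  /-- the planes `Q_i` -/
  Q : Fin 4 → X.Plane
  line : ∀ i, meetDim P (Q i) = 2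
  point : ∀ i j, i ≠ j → meetDim (Q i) (Q j) = 1

/-- `X` is in the Hassett divisor `C_d`: there is a Hodge class `v` such that `h` and `v` span a
saturated group of discriminant `d`. -/
def InDivisor {X : CubicFourfold} (H : H4 X) (d : ℤ) : Prop :=
  ∃ v, H.IsHodge v ∧ H.Saturated v ∧ H.disc v = d

/-- `X` is in a Hassett divisor `C_d`, where `d = (2 n ^ 2 + 2 n + 2) / a ^ 2` with integers `a` and `n`.
By a theorem of Addington this means that the variety of lines `F(X)` is birational to the Hilbert
square `S^[2]` of some K3 surface `S`. -/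
def HilbertSquare {X : CubicFourfold} (H : H4 X) : Prop :=
  ∃ d, (∃ a n : ℤ, a ^ 2 * d = 2 * n ^ 2 + 2 * n + 2) ∧ InDivisor H d

/-- `X` is in a Hassett divisor `C_d` with an admissible `d`. By theorems of Hassett and of Addington
and Thomas this means that `X` has an associated K3 surface, in the sense of Hassett or of
Kuznetsov. -/
def AssociatedK3 {X : CubicFourfold} (H : H4 X) : Prop := ∃ d, Admissible d ∧ InDivisor H d

/-- The known rationality of the cubic fourfolds in `C_14`, `C_26`, `C_38` and `C_42`. -/
def KnownRational {X : CubicFourfold} (H : H4 X) : Prop :=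
  ∀ d : ℤ, (d = 14 ∨ d = 26 ∨ d = 38 ∨ d = 42) → InDivisor H d → X.IsRational

/-- The first two statements: Hilbert squares, and rationality for `d ≤ 42`. -/
def Criterion {X : CubicFourfold} (H : H4 X) : Prop :=
  (HilbertSquare H ↔ ∃ d, ¬ 4 ∣ d ∧ InDivisor H d) ∧
    (HilbertSquare H ↔ ∃ v, H.IsHodge v ∧ ¬ 4 ∣ H.disc v) ∧
    (HilbertSquare H ↔ AssociatedK3 H) ∧
    ∀ d ≤ 42, ¬ 4 ∣ d → InDivisor H d → X.IsRational ∧ HilbertSquare H

/-- **Cubic fourfolds with primitive Hodge classes which form a lattice `D₄(2)`**, in particular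
with a symplectic involution or an Eckardt point, or with four reducible fibres of the quadric
fibration defined by a plane. -/
theorem result {X : CubicFourfold} {H : H4 X} (hH : H.IsCohomology) (hR : KnownRational H) :
    (∀ s, Spans H (CartanMatrix.D 4) s → Criterion H ∧
      ∀ v, H.IsHodge v → (∃ i, Odd (H.ip v (s i))) →
        HilbertSquare H ∧ (H.disc v ≤ 42 → X.IsRational)) ∧
    (∀ (σ : Involution X 1) (ι : (Fin 23 → ℤ) →+ (Fin 23 → ℤ)), EckardtActsBy H σ ι →
      Criterion H) ∧
    (∀ (σ : Involution X 2) (ι : (Fin 23 → ℤ) →+ (Fin 23 → ℤ)), SymplecticActsBy H σ ι →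
      Criterion H) ∧
    (IntersectionNumbers H → ∀ _ : FivePlanes X, Criterion H) := by
  have conv : ∀ {n : ℕ} {C : Matrix (Fin n) (Fin n) ℤ} {s : Fin n → Fin 23 → ℤ}, Spans H C s →
      Pool.Agent.X328.CF.D4.Spans H C s := fun h => ⟨h.hodge, h.primitive, h.gram⟩
  have hs2 : ∀ s, Pool.Agent.X328.CF.D4.IsD4 H s → ∀ v, H.IsHodge v → ¬ 4 ∣ H.disc v →
      HilbertSquare H := fun s hs v hv h4 =>
    Pool.Agent.X328.CF.D4.hilbert hH hs hv h4
  have crit : ∀ s, Pool.Agent.X328.CF.D4.IsD4 H s → Criterion H := by
    intro s hs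
    refine ⟨⟨?_, ?_⟩, ⟨?_, ?_⟩, ⟨?_, ?_⟩, ?_⟩
    · rintro ⟨d, ⟨a, n, h⟩, hd⟩
      exact ⟨d, four_not_dvd h, hd⟩
    · rintro ⟨d, h4, v, hv, -, rfl⟩
      exact hs2 s hs v hv h4
    · rintro ⟨d, ⟨a, n, h⟩, v, hv, -, rfl⟩
      exact ⟨v, hv, four_not_dvd h⟩
    · rintro ⟨v, hv, h4⟩
      exact hs2 s hs v hv h4
    · rintro ⟨d, ⟨a, n, h⟩, v, hv, -, rfl⟩
      exact Pool.Agent.X328.CF.D4.hasK3 hH hs hv (four_not_dvd h)
    · rintro ⟨d, hA, v, hv, -, rfl⟩
      exact hs2 s hs v hv hA.2.1
    · rintro d h42 h4 ⟨v, hv, hsat, rfl⟩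
      obtain ⟨d, hd, hdd⟩ := Pool.Agent.X328.CF.D4.small hH hs hv hsat h42 h4
      exact ⟨hR d hd hdd, hs2 s hs v hv h4⟩
  refine ⟨fun s hs => ⟨crit s (conv hs), fun v hv ho => ⟨?_, fun h42 => ?_⟩⟩, ?_, ?_, ?_⟩
  · obtain ⟨w, hw, h4⟩ := Pool.Agent.X328.CF.D4.exists_not_four hH (conv hs) hv ho
    exact hs2 s (conv hs) w hw h4
  · obtain ⟨d, hd, hdd⟩ := Pool.Agent.X328.CF.D4.small_odd hH (conv hs) hv ho h42
    exact hR d (by tauto) hdd
  · intro σ ι hι
    obtain ⟨s, hs, hspan⟩ := hι.lattice
    have hsn : ∀ i, ι (s i) = s i ∧ H.ip (s i) H.h = 0 := fun i => (hspan _).2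
      ⟨Pi.single i 1, by
        rw [Finset.sum_eq_single i]
        · rw [Pi.single_eq_same, one_smul]
        · intro j _ hj
          rw [Pi.single_eq_of_ne hj, zero_smul]
        · intro h
          exact absurd (Finset.mem_univ _) h⟩
    have h6 : Pool.Agent.X328.CF.D4.Spans H CartanMatrix.E₆ s :=
      ⟨fun i => hι.hodge _ (hsn i).1, fun i => (hsn i).2, hs⟩
    exact crit _ (h6.sub _ Pool.Agent.X328.CF.D4.m6_eq)
  · intro σ ι hι
    obtain ⟨s, hs, hspan⟩ := hι.lattice
    have hsn : ∀ i, ι (s i) = -s i := fun i => (hspan _).2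
      ⟨Pi.single i 1, by
        rw [Finset.sum_eq_single i]
        · rw [Pi.single_eq_same, one_smul]
        · intro j _ hj
          rw [Pi.single_eq_of_ne hj, zero_smul]
        · intro h
          exact absurd (Finset.mem_univ _) h⟩
    have hp : ∀ i, H.ip (s i) H.h = 0 := by
      intro i
      have h1 := hι.isometry (s i) H.h
      rw [hsn i, hι.fixes_h, H.ip_neg_left] at h1
      omega
    have h8 : Pool.Agent.X328.CF.D4.Spans H CartanMatrix.E₈ s :=
      ⟨fun i => hι.hodge _ (hsn i), hp, hs⟩
    exact crit _ (h8.sub _ Pool.Agent.X328.CF.D4.m8_eq0)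
  · rintro hI ⟨P, Q, hPQ, hQQ⟩
    have hd : ∀ i, H.IsHodge (H.cl (Q i)) ∧ H.ip (H.cl (Q i)) H.h = 1 ∧
        H.ip (H.cl (Q i)) (H.cl (Q i)) = 3 := fun i => (hH.cl_range _).1 ⟨_, rfl⟩
    have hP : H.IsHodge (H.cl P) ∧ H.ip (H.cl P) H.h = 1 ∧ H.ip (H.cl P) (H.cl P) = 3 :=
      (hH.cl_range _).1 ⟨_, rfl⟩
    have h1 : ∀ i, H.ip (H.cl P) (H.cl (Q i)) = -1 := fun i => (hI P (Q i)).1 (hPQ i)
    have h2 : ∀ i j, i ≠ j → H.ip (H.cl (Q i)) (H.cl (Q j)) = 1 := fun i j hij =>
      (hI (Q i) (Q j)).2 (hQQ i j hij)
    exact crit _ (Pool.Agent.X328.CF.D4.isD4_planes hH hP hd h1 h2)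

end Pool.Agent.Results.MP_4d0966_ag.HilbertSquaresD4
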